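import Mathlib.MeasureTheory.Measure.Lebesgue.Basic
import Pool.Agent.Helper59.Bin

/-!
# Explicit polytopes with a bounding box, in binary coding

`BN` (in `Pool.Agent.Helper59.Bin`) is the type of natural numbers, coded in binary;
`PolyTimeComputable` (Mathlib's multi-stack Turing machines) and the coding `encOf` of structured
data are in `Pool.Agent.Helper81.CxDefs` and `Pool.Agent.Helper81.CxData`.
-/

namespace Pool.Agent.Helper92.VP

open Pool.Agent.Helper81.CC Pool.Agent.Bin

/-- A rational number: sign (`true` means minus), numerator and denominator, the last two in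
binary. -/
abbrev RQ := Bool × BN × BN

/-- The value of a rational number (`0` if the denominator is `0`). -/
noncomputable def RQ.val (q : RQ) : ℝ := (if q.1 then -1 else 1) * (q.2.1.val : ℝ) / q.2.2.val

/-- The number of the bits of a rational number (the sign, the numerator, the denominator). -/
def RQ.bits (q : RQ) : ℕ := 1 + Nat.size q.2.1.val + Nat.size q.2.2.val

/-- An instance: for each variable a lower bound and an upper bound; and a list of rows. A row
`(a, b)` consists of the list `a` of the coefficients of the variables and the right hand side `b`.
It stands for the inequality `∑ j, a j * x j ≥ b`. -/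
abbrev Inst := List (RQ × RQ) × List (List RQ × RQ)

/-- The number of the variables. -/
abbrev dim (I : Inst) : ℕ := I.1.length

/-- The lower bound of the variable `j`. -/
noncomputable def lo (I : Inst) (j : Fin (dim I)) : ℝ := (I.1[j]).1.val

/-- The upper bound of the variable `j`. -/
noncomputable def up (I : Inst) (j : Fin (dim I)) : ℝ := (I.1[j]).2.val

/-- The coefficient of the variable `j` in the row `r` (`0` if the list of the coefficients is too
short). -/
noncomputable def coef (r : List RQ × RQ) (j : ℕ) : ℝ := (r.1.getD j (false, ⟨0⟩, ⟨1⟩)).val

/-- The bounding box. -/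
def box (I : Inst) : Set (Fin (dim I) → ℝ) := {x | ∀ j, lo I j ≤ x j ∧ x j ≤ up I j}

/-- The polytope: all points of the box that satisfy all rows. -/
def poly (I : Inst) : Set (Fin (dim I) → ℝ) :=
  {x | x ∈ box I ∧ ∀ r ∈ I.2, r.2.val ≤ ∑ j : Fin (dim I), coef r j * x j}

/-- The volume. -/
noncomputable def vol {n : ℕ} (S : Set (Fin n → ℝ)) : ℝ := (MeasureTheory.volume S).toReal

/-- The total number of the bits of all rational numbers of the instance. -/
def isize (I : Inst) : ℕ :=
  (I.1.map fun z => z.1.bits + z.2.bits).sum +
    (I.2.map fun r => (r.1.map RQ.bits).sum + r.2.bits).sum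

/-- `I` is `k`-sparse: in each row at most `k` variables have a nonzero coefficient. -/
def Sparse (k : ℕ) (I : Inst) : Prop :=
  ∀ r ∈ I.2, {j : Fin (dim I) | coef r j ≠ 0}.ncard ≤ k

/-- A deterministic polynomial-time machine computes, for each `k`-sparse instance `I`, a rational
number which is the volume of the polytope up to an additive error of at most
`1 / (log₂ L + 2) ^ c` times the volume of the box, where `L` is the number of the bits of `I`. -/
def Additive (k c : ℕ) : Prop :=
  ∃ f : Inst → RQ, PolyTimeComputable (encOf Inst) (encOf RQ) f ∧ ∀ I, Sparse k I →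
    |(f I).val - vol (poly I)| ≤ vol (box I) / (Nat.log 2 (isize I) + 2 : ℕ) ^ c

end Pool.Agent.Helper92.VP
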