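import Pool.Agent.Helper92.VP.Defs

/-!
# Volumes of sparse polytopes: goals (T1)
-/

namespace Pool.Agent.Helper92.VP

open MeasureTheory

/-- SLAB. A slab has small volume in a box.

Proof. Write `n = m + 1` and use the measure preserving equivalence
`MeasurableEquiv.piFinSuccAbove (fun _ => ℝ) J : (Fin (m+1) → ℝ) ≃ᵐ ℝ × (Fin m → ℝ)`
(`MeasureTheory.volume_preserving_piFinSuccAbove`), `x ↦ (x J, rest)`, and
`Measure.prod_apply_symm` (or `Measure.prod_apply`): for each rest `y` in the box
`∏_{j ≠ J} [l j, u j]` the set of the `t = x J` with `|a J t + (∑_{j≠J} a j y j) - b| ≤ δ` is an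
interval of length `2 δ / |a J|`, and for the other `y` the section is empty. So the volume is at
most `2 δ / |a J|` times the volume of the box of the rests, `∏_{j ≠ J} (u j - l j)`
(`Real.volume_Icc_pi`). (Alternatively: a shear has determinant one.) -/
def SlabStmt : Prop := ∀ (n : ℕ) (l u : Fin n → ℝ) (_ : ∀ j, l j < u j) (a : Fin n → ℝ)
    (b δ : ℝ) (J : Fin n) (_ : a J ≠ 0) (_ : 0 ≤ δ),
    volume {x : Fin n → ℝ | (∀ j, l j ≤ x j ∧ x j ≤ u j) ∧ |∑ j, a j * x j - b| ≤ δ} ≤
      ENNReal.ofReal (2 * δ / |a J| * ∏ j ∈ Finset.univ.erase J, (u j - l j))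

/-- GEO. Counting the lower corners of the cells of a grid approximates the volume.

Proof. For `v : Fin n → Fin N` let `c v j = l j + (u j - l j) * v j / N` be the lower corner of the
half-open cell `C v = ∏_j [c v j, c v j + (u j - l j) / N)` (`Set.pi univ` of `Ico`), whose volume
is `w = ∏ (u j - l j) / N ^ n` (`Real.volume_pi_Ico`). The cells are pairwise disjoint and their
union is `B' = ∏_j [l j, u j)`, which differs from the closed box `B` by a null set (it has the same
finite volume, `Real.volume_Icc_pi`). Let `G` be the set of the `v` whose corner satisfies all rows,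
`U = ⋃_{v ∈ G} C v`, so `volume U = |G| w`. Let `P` be the set on the right hand side.
For `x ∈ C v` and a row `r = (a, b)` one has
`|∑ a j x j - ∑ a j c v j| ≤ ∑ |a j| (u j - l j) / N =: δ r`. If `x` is in the symmetric difference
of `U` and `P ∩ B'`, then for some row `r` of `R` exactly one of the two points `x`, `c v` satisfies
`r`, so `|∑ a j x j - b| ≤ δ r`; and then `a ≠ 0` (for `a = 0` both points satisfy the row or none
does). For such a row choose `J` with `|a J| (u J - l J)` maximal, so `a J ≠ 0` and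
`δ r ≤ k |a J| (u J - l J) / N`, since at most `k` coefficients are nonzero; by SLAB the volume of
`{x ∈ B : |∑ a j x j - b| ≤ δ r}` is at most `2 k (u J - l J) / N * ∏_{j ≠ J} (u j - l j)
= 2 k / N * ∏ (u j - l j)`. Sum over the rows. -/
def GeoStmt : Prop := ∀ (n : ℕ) (l u : Fin n → ℝ) (_ : ∀ j, l j < u j)
    (R : List ((Fin n → ℝ) × ℝ)) (k N : ℕ) (_ : 0 < N)
    (_ : ∀ r ∈ R, {j | r.1 j ≠ 0}.ncard ≤ k),
    |(Nat.card {v : Fin n → Fin N //
          ∀ r ∈ R, r.2 ≤ ∑ j, r.1 j * (l j + (u j - l j) * ((v j : ℕ) : ℝ) / N)} : ℝ) / N ^ n *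
          ∏ j, (u j - l j) -
        vol {x : Fin n → ℝ | (∀ j, l j ≤ x j ∧ x j ≤ u j) ∧ ∀ r ∈ R, r.2 ≤ ∑ j, r.1 j * x j}| ≤
      2 * k * R.length / N * ∏ j, (u j - l j)

end Pool.Agent.Helper92.VP
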