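import Pool.Agent.Helper92.VP.Alg1
import Pool.Agent.Helper78.DT.Final

/-!
# The machine for the rows
-/

namespace Pool.Agent.Helper92.VP

open Pool.Agent.Helper81.CC Pool.Agent.Bin Pool.Agent.Helper78.DT

variable {α : Type} [ToData α]

theorem PT_bits {f : α → RQ} (hf : PolyTime f) : PolyTime (fun a => (f a).bits) := by
  have h : PolyTime (fun a => 1 + (f a).2.1.size + (f a).2.2.size) := by fun_prop
  exact PolyTime.congr h fun a => by rw [BN.size_eq, BN.size_eq]; rfl

theorem PT_isize : PolyTime isize := by
  unfold isize
  refine PolyTime.add (PolyTime.sum ?_) (PolyTime.sum ?_)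
  · refine PolyTime.list_map (f := fun _ (z : RQ × RQ) => z.1.bits + z.2.bits) (by fun_prop) ?_
    exact PolyTime.add (PT_bits (by fun_prop)) (PT_bits (by fun_prop))
  · refine PolyTime.list_map (f := fun _ (r : List RQ × RQ) => (r.1.map RQ.bits).sum + r.2.bits)
      (by fun_prop) ?_
    refine PolyTime.add (PolyTime.sum ?_) (PT_bits (by fun_prop))
    refine PolyTime.list_map (f := fun _ (q : RQ) => q.bits) (by fun_prop) (PT_bits (by fun_prop))

/-- A number which is large in comparison with the number of the rows. -/
def bigM (k c : ℕ) (I : Inst) : ℕ := 4 * k * I.2.length * (isize I + 2) ^ c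

theorem PT_bigM (k c : ℕ) : PolyTime (bigM k c) := by
  have h := PT_isize
  unfold bigM
  fun_prop

/-- The number of the bits for each variable. -/
def bB (k c : ℕ) (I : Inst) : ℕ := Nat.size (bigM k c I)

theorem PT_bB (k c : ℕ) : PolyTime (bB k c) := by
  have h : PolyTime (fun I => (BN.ofNat (bigM k c I)).size) := by
    have := PT_bigM k c
    fun_prop
  exact PolyTime.congr h fun I => BN.size_eq _

/-- The row `i`. -/
def rowi (I : Inst) (i : ℕ) : List RQ × RQ := I.2.getD i ([], (false, ⟨0⟩, ⟨1⟩))

/-- The support of the row `i`. -/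
def spi (k : ℕ) (I : Inst) (i : ℕ) : List ℕ := supp k I.1.length (rowi I i)

/-- The verdict on the row `i` for the bits `a`. -/
def verd (k c : ℕ) (I : Inst) (i : ℕ) (a : List Bool) : Bool :=
  (toDQ (rowi I i).2).le (evalK I.1 (bB k c I) (spi k I i) (rowi I i) a k)

/-- The next action. -/
def actV (k c : ℕ) (z : View Inst) : ℕ :=
  if z.2.1 < z.1.2.length then
    if z.2.2.length < (spi k z.1 z.2.1).length * bB k c z.1 then
      (spi k z.1 z.2.1).getD (z.2.2.length / bB k c z.1) 0 * bB k c z.1 +
        z.2.2.length % bB k c z.1 + 3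
    else if verd k c z.1 z.2.1 z.2.2 = true then 0 else 1
  else 2

theorem PT_rowi {f : α → Inst} {g : α → ℕ} (hf : PolyTime f) (hg : PolyTime g) :
    PolyTime (fun a => rowi (f a) (g a)) := by
  unfold rowi
  fun_prop

theorem PT_spi (k : ℕ) {f : α → Inst} {g : α → ℕ} (hf : PolyTime f) (hg : PolyTime g) :
    PolyTime (fun a => spi k (f a) (g a)) := by
  have := PT_rowi hf hg
  unfold spi
  fun_prop

theorem PT_actV (k c : ℕ) : PolyTime (actV k c) := by
  have h0 : PolyTime (fun z : View Inst => z.1) := by fun_prop
  have h0' : PolyTime (fun z : View Inst => z.2.1) := by fun_prop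
  have h1 : PolyTime (fun z : View Inst => bB k c z.1) := PolyTime.comp (PT_bB k c) h0
  have h2 := PT_rowi h0 h0'
  have h3 := PT_spi k h0 h0'
  have h4 : PolyTime (fun z : View Inst =>
      evalK z.1.1 (bB k c z.1) (spi k z.1 z.2.1) (rowi z.1 z.2.1) z.2.2 k) :=
    PT_evalK (by fun_prop) h1 h3 h2 (by fun_prop) k
  have h5 : PolyTime (fun z : View Inst => verd k c z.1 z.2.1 z.2.2) := by
    unfold verd
    fun_prop
  unfold actV
  fun_prop

theorem spi_length_le (k : ℕ) (I : Inst) (i : ℕ) : (spi k I i).length ≤ k := by
  unfold spi supp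
  rw [List.length_take]
  exact min_le_left _ _

theorem two_pow_bB_le (k c : ℕ) (I : Inst) : 2 ^ bB k c I ≤ 2 * bigM k c I + 1 := by
  unfold bB
  rcases Nat.eq_zero_or_pos (bigM k c I) with h | h
  · rw [h]; simp
  · have h1 : 0 < Nat.size (bigM k c I) := Nat.size_pos.mpr h
    have h2 : 2 ^ (Nat.size (bigM k c I) - 1) ≤ bigM k c I :=
      Nat.lt_size.mp (Nat.sub_lt h1 one_pos)
    obtain ⟨s, hs⟩ : ∃ s, Nat.size (bigM k c I) = s + 1 := ⟨_, (Nat.succ_pred_eq_of_pos h1).symm⟩
    rw [hs] at h2 ⊢
    rw [pow_succ]
    simp only [Nat.add_sub_cancel] at h2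
    omega

theorem encard_len_le (n : ℕ) : {a : List Bool | a.length ≤ n}.encard ≤ ((2 ^ (n + 1) : ℕ) : ℕ∞) := by
  classical
  have hinj : Set.InjOn (fun a : List Bool => bval (a ++ [true])) {a : List Bool | a.length ≤ n} := by
    intro a _ b _ h
    simp only at h
    have key : ∀ a b : List Bool, bval (a ++ [true]) = bval (b ++ [true]) → a = b := by
      intro a
      induction a with
      | nil =>
        intro b h
        cases b with
        | nil => rfl
        | cons y b =>
          exfalso
          rw [List.nil_append, List.cons_append, bval_cons, bval_cons, bval_nil, bval_append,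
            bval_cons, bval_nil] at h
          have h3 : 0 < 2 ^ b.length := by positivity
          cases y <;> simp at h <;> omega
      | cons x a ih =>
        intro b h
        cases b with
        | nil =>
          exfalso
          rw [List.nil_append, List.cons_append, bval_cons, bval_cons, bval_nil, bval_append,
            bval_cons, bval_nil] at h
          have h3 : 0 < 2 ^ a.length := by positivity
          cases x <;> simp at h <;> omega
        | cons y b =>
          rw [List.cons_append, List.cons_append, bval_cons, bval_cons] at h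
          have h1 : x = y ∧ bval (a ++ [true]) = bval (b ++ [true]) := by
            cases x <;> cases y <;> simp at h ⊢ <;> omega
          rw [h1.1, ih b h1.2]
    exact key a b h
  have hmap : Set.MapsTo (fun a : List Bool => bval (a ++ [true])) {a : List Bool | a.length ≤ n}
      ((Finset.range (2 ^ (n + 1)) : Finset ℕ) : Set ℕ) := by
    intro a ha
    rw [Finset.coe_range, Set.mem_Iio]
    refine (bval_lt _).trans_le (Nat.pow_le_pow_right (by norm_num) ?_)
    rw [List.length_append, List.length_singleton]
    exact Nat.succ_le_succ ha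
  have h := Set.encard_le_encard_of_injOn hmap hinj
  rw [Set.encard_coe_eq_coe_finsetCard, Finset.card_range] at h
  exact h

theorem three_le_act {k c : ℕ} {I : Inst} {i : ℕ} {a : List Bool} (h : 3 ≤ actV k c (I, i, a)) :
    i < I.2.length ∧ a.length < (spi k I i).length * bB k c I := by
  unfold actV at h
  simp only at h
  by_cases h1 : i < I.2.length
  · by_cases h2 : a.length < (spi k I i).length * bB k c I
    · exact ⟨h1, h2⟩
    · rw [if_pos h1, if_neg h2] at h
      split_ifs at h <;> omega
  · rw [if_neg h1] at h
    omega

theorem tree_act (k c : ℕ) (I : Inst) (i : ℕ) :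
    {a : List Bool | ∀ t < a.length, 3 ≤ actV k c (I, i, a.take t)}.encard ≤
      ((2 * (2 * bigM k c I + 1) ^ k : ℕ) : ℕ∞) := by
  have hsub : {a : List Bool | ∀ t < a.length, 3 ≤ actV k c (I, i, a.take t)} ⊆
      {a : List Bool | a.length ≤ (spi k I i).length * bB k c I} := by
    intro a ha
    rcases Nat.eq_zero_or_pos a.length with h0 | h0
    · show a.length ≤ _
      rw [h0]; exact Nat.zero_le _
    · have h := (three_le_act (ha (a.length - 1) (Nat.sub_lt h0 one_pos))).2
      rw [List.length_take] at h
      show a.length ≤ _
      omega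
  refine ((Set.encard_le_encard hsub).trans (encard_len_le _)).trans ?_
  have h1 : (spi k I i).length * bB k c I ≤ k * bB k c I :=
    Nat.mul_le_mul_right _ (spi_length_le k I i)
  have h2 : 2 ^ ((spi k I i).length * bB k c I + 1) ≤ 2 * (2 * bigM k c I + 1) ^ k := by
    calc 2 ^ ((spi k I i).length * bB k c I + 1) ≤ 2 ^ (k * bB k c I + 1) :=
          Nat.pow_le_pow_right (by norm_num) (by omega)
      _ = 2 * (2 ^ bB k c I) ^ k := by rw [pow_succ, ← pow_mul, mul_comm (bB k c I) k]; ring
      _ ≤ _ := Nat.mul_le_mul_left _ (Nat.pow_le_pow_left (two_pow_bB_le k c I) k)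
  exact_mod_cast h2

/-- The machine: the stage `i` reads the bits of the variables in the row `i`, and it rejects if
the corner violates the row. -/
def mach (k c : ℕ) : Machine Inst where
  m := fun I => I.1.length * bB k c I
  T := fun I => I.2.length + 1
  w := fun I => 2 * (2 * bigM k c I + 1) ^ k
  act := actV k c
  m_poly := (PolyTime.mul (by fun_prop) (PT_bB k c)).computable
  T_poly := (PolyTime.succ (by fun_prop)).computable
  w_poly := by
    have h := PT_bigM k c
    have h1 : PolyTime (fun I => 2 * (2 * bigM k c I + 1) ^ k) := by fun_prop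
    exact h1.computable
  act_poly := (PT_actV k c).computable
  tree := tree_act k c

/-- The number with the bits of the variable `j`. -/
def vJ (k c : ℕ) (I : Inst) (r : Fin (I.1.length * bB k c I) → Bool) (j : ℕ) : ℕ :=
  bval ((List.range (bB k c I)).map fun s => (mach k c).coin (x := I) r (j * bB k c I + s))

/-- The bits which the stage `i` reads. -/
def rd (k c : ℕ) (I : Inst) (r : Fin (I.1.length * bB k c I) → Bool) (i : ℕ) : List Bool :=
  (List.range ((spi k I i).length * bB k c I)).map fun p => (mach k c).coin (x := I) r
    ((spi k I i).getD (p / bB k c I) 0 * bB k c I + p % bB k c I)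

theorem act_read {k c : ℕ} {I : Inst} {i : ℕ} {a : List Bool} (h1 : i < I.2.length)
    (h2 : a.length < (spi k I i).length * bB k c I) :
    actV k c (I, i, a) = (spi k I i).getD (a.length / bB k c I) 0 * bB k c I +
        a.length % bB k c I + 3 := by
  unfold actV
  simp only
  rw [if_pos h1, if_pos h2]

theorem act_stop {k c : ℕ} {I : Inst} {i : ℕ} {a : List Bool} (h1 : i < I.2.length)
    (h2 : ¬ a.length < (spi k I i).length * bB k c I) :
    actV k c (I, i, a) = if verd k c I i a = true then 0 else 1 := by
  unfold actV
  simp only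
  rw [if_pos h1, if_neg h2]

theorem act_fin {k c : ℕ} {I : Inst} {i : ℕ} {a : List Bool} (h1 : ¬ i < I.2.length) :
    actV k c (I, i, a) = 2 := by
  unfold actV
  simp only
  rw [if_neg h1]

theorem ends_zero_iff (k c : ℕ) (I : Inst) (r : Fin (I.1.length * bB k c I) → Bool) {i : ℕ}
    (hi : i < I.2.length) (v : ℕ) :
    (∃ a, (mach k c).Ends I r i a v) ↔ (if verd k c I i (rd k c I r i) = true then 0 else 1) = v := by
  have hlen : (rd k c I r i).length = (spi k I i).length * bB k c I := by
    unfold rd
    rw [List.length_map, List.length_range]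
  constructor
  · rintro ⟨a, h1, h2, h3⟩
    have h4 : ¬ a.length < (spi k I i).length * bB k c I := by
      intro h
      have : (mach k c).act (I, i, a) = _ := act_read hi h
      omega
    have h5 : a.length ≤ (spi k I i).length * bB k c I := by
      rcases Nat.eq_zero_or_pos a.length with h0 | h0
      · omega
      · have h := (three_le_act (h1 (a.length - 1) (Nat.sub_lt h0 one_pos)).1).2
        rw [List.length_take] at h
        omega
    have h6 : a = rd k c I r i := by
      refine List.ext_getElem (by omega) fun t ht1 ht2 => ?_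
      obtain ⟨-, h8⟩ := h1 t ht1
      rw [h8]
      have h9 : (mach k c).act (I, i, a.take t) = _ :=
        act_read hi (by rw [List.length_take]; omega)
      rw [h9, List.length_take, min_eq_left ht1.le]
      simp only [rd, List.getElem_map, List.getElem_range]
      congr 1
    rw [← h6, ← act_stop hi h4]
    exact h2
  · intro h
    refine ⟨rd k c I r i, fun t ht => ?_, ?_, ?_⟩
    · have h9 : (mach k c).act (I, i, (rd k c I r i).take t) = _ :=
        act_read hi (by rw [List.length_take]; omega)
      rw [h9, List.length_take, min_eq_left ht.le]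
      refine ⟨by omega, ?_⟩
      simp only [rd, List.getElem_map, List.getElem_range]
      congr 1
    · rw [← h]
      exact act_stop hi (by omega)
    · rw [← h]
      split_ifs <;> omega

theorem accepts_iff (k c : ℕ) (I : Inst) (r : Fin (I.1.length * bB k c I) → Bool) :
    (mach k c).Accepts I r ↔ ∀ i < I.2.length, verd k c I i (rd k c I r i) = true := by
  unfold Machine.Accepts
  constructor
  · rintro ⟨i, hi, h1, h2⟩
    have hi' : i < I.2.length + 1 := hi
    have h3 : ¬ i < I.2.length := by
      intro h
      have := (ends_zero_iff k c I r h 2).mp h1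
      split_ifs at this <;> omega
    have h4 : i = I.2.length := by omega
    subst h4
    intro j hj
    have := (ends_zero_iff k c I r hj 0).mp (h2 j hj)
    by_contra h
    rw [if_neg h] at this
    omega
  · intro h
    refine ⟨I.2.length, Nat.lt_succ_self _, ⟨[], ?_, ?_, by norm_num⟩, fun j hj => ?_⟩
    · intro t ht
      exact absurd ht (Nat.not_lt_zero _)
    · exact act_fin (lt_irrefl _)
    · exact (ends_zero_iff k c I r hj 0).mpr (by rw [if_pos (h j hj)])

end Pool.Agent.Helper92.VP
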