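import Pool.Agent.Helper92.VP.Alg3
import Pool.Agent.Helper94.VP.SLAB
import Pool.Agent.Helper39.VP.GEO

/-!
# The volume of sparse polytopes: the assembly
-/

namespace Pool.Agent.Helper92.VP

open Pool.Agent.Helper81.CC Pool.Agent.Bin Pool.Agent.Helper78.DT MeasureTheory

/-- The width of a box in one direction. -/
def wid (z : RQ × RQ) : DQ := (toDQ z.2).add (toDQ z.1).neg

theorem wid_val (z : RQ × RQ) : (wid z).val = z.2.val - z.1.val := by
  unfold wid
  rw [add_val (toDQ_ok _) (neg_ok (toDQ_ok _)), neg_val, toDQ_val, toDQ_val]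
  ring

theorem wid_ok (z : RQ × RQ) : (wid z).Ok := add_ok (toDQ_ok _) (neg_ok (toDQ_ok _))

theorem wid_max (z : RQ × RQ) :
    (((wid z).1 - (wid z).2.1).val : ℝ) / (wid z).2.2.val = max 0 (z.2.val - z.1.val) := by
  have h0 : (0 : ℝ) < (wid z).2.2.val := Nat.cast_pos.mpr (Nat.pos_of_ne_zero (wid_ok z))
  have h1 := wid_val z
  unfold DQ.val at h1
  rw [← h1, BN.val_sub]
  rcases le_total (wid z).2.1.val (wid z).1.val with h | h
  · rw [Nat.cast_sub h, max_eq_right]
    exact div_nonneg (sub_nonneg.mpr (Nat.cast_le.mpr h)) h0.le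
  · rw [Nat.sub_eq_zero_of_le h, Nat.cast_zero, zero_div, max_eq_left]
    exact div_nonpos_of_nonpos_of_nonneg (sub_nonpos.mpr (Nat.cast_le.mpr h)) h0.le

theorem box_eq (I : Inst) : box I = Set.Icc (lo I) (up I) := by
  ext x
  simp only [box, Set.mem_Icc, Pi.le_def]
  exact forall_and

theorem vol_box (I : Inst) : vol (box I) = ∏ j, max 0 (up I j - lo I j) := by
  unfold vol
  rw [box_eq, Real.volume_Icc_pi, ENNReal.toReal_prod]
  refine Finset.prod_congr rfl fun j _ => ?_
  rw [ENNReal.toReal_ofReal', max_comm]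

/-- The product of the widths. -/
def widths (I : Inst) : BN × BN :=
  (BN.prod (I.1.map fun z => (wid z).1 - (wid z).2.1), BN.prod (I.1.map fun z => (wid z).2.2))

theorem PT_widths : PolyTime widths := by
  unfold widths wid
  refine PolyTime.pair (PolyTime.bn_prod (PolyTime.list_map
    (f := fun _ (z : RQ × RQ) => ((toDQ z.2).add (toDQ z.1).neg).1 -
      ((toDQ z.2).add (toDQ z.1).neg).2.1) (by fun_prop) (by fun_prop)))
    (PolyTime.bn_prod (PolyTime.list_map
    (f := fun _ (z : RQ × RQ) => ((toDQ z.2).add (toDQ z.1).neg).2.2) (by fun_prop) (by fun_prop)))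

theorem prod_list (l : List (RQ × RQ)) :
    (((l.map fun z => (wid z).1 - (wid z).2.1).map BN.val).prod : ℝ) /
      ((l.map fun z => (wid z).2.2).map BN.val).prod =
      (l.map fun z => max 0 (z.2.val - z.1.val)).prod := by
  induction l with
  | nil => simp
  | cons z l ih =>
    simp only [List.map_cons, List.prod_cons, Nat.cast_mul] at ih ⊢
    rw [mul_div_mul_comm, ih, wid_max]

theorem widths_val (I : Inst) : ((widths I).1.val : ℝ) / (widths I).2.val = vol (box I) := by
  rw [vol_box]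
  unfold widths
  simp only [BN.val_prod]
  rw [prod_list]
  have : (fun j : Fin (dim I) => max 0 (up I j - lo I j)) = fun j : Fin (dim I) =>
      (fun z : RQ × RQ => max 0 (z.2.val - z.1.val)) I.1[j] := rfl
  rw [this, ← List.prod_ofFn]
  congr 1
  refine List.ext_getElem (by simp) fun i h1 h2 => ?_
  simp

theorem vol_mono {n : ℕ} {S T : Set (Fin n → ℝ)} (h : S ⊆ T) (hT : volume T ≠ ⊤) :
    vol S ≤ vol T := ENNReal.toReal_mono hT (measure_mono h)

theorem vol_nonneg {n : ℕ} (S : Set (Fin n → ℝ)) : 0 ≤ vol S := ENNReal.toReal_nonneg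

theorem poly_le_box (I : Inst) : vol (poly I) ≤ vol (box I) := by
  refine vol_mono (fun x hx => hx.1) ?_
  rw [box_eq, Real.volume_Icc_pi]
  exact (ENNReal.prod_lt_top fun j _ => ENNReal.ofReal_lt_top).ne

theorem length_le_isize (I : Inst) : I.2.length ≤ isize I := by
  unfold isize
  have h : I.2.length ≤ (I.2.map fun r => (r.1.map RQ.bits).sum + r.2.bits).sum := by
    induction I.2 with
    | nil => simp
    | cons r l ih =>
      rw [List.length_cons, List.map_cons, List.sum_cons]
      have : 1 ≤ r.2.bits := by unfold RQ.bits; omega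
      omega
  omega

theorem vol_poly_eq (I : Inst) : vol (poly I) = vol {x : Fin (dim I) → ℝ |
    (∀ j, lo I j ≤ x j ∧ x j ≤ up I j) ∧
      ∀ r ∈ (I.2.map fun r => ((fun j : Fin (dim I) => coef r j), r.2.val)),
        r.2 ≤ ∑ j, r.1 j * x j} := by
  congr 1
  ext x
  simp only [poly, box, List.mem_map, forall_exists_index, and_imp, forall_apply_eq_imp_iff₂]
  rfl

theorem acc_close {k c : ℕ} {I : Inst} (hI : Sparse k I) (hlu : ∀ j, lo I j < up I j) :
    |((mach k c).acc I : ℝ) / 2 ^ (mach k c).m I * vol (box I) - vol (poly I)| ≤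
      1 / 2 * (1 / (Nat.log 2 (isize I) + 2 : ℕ) ^ c) * vol (box I) := by
  have hv : vol (box I) = ∏ j, (up I j - lo I j) := by
    rw [vol_box]
    exact Finset.prod_congr rfl fun j _ => max_eq_right (sub_nonneg.mpr (hlu j).le)
  have h := Pool.Agent.Helper39.VP.geo Pool.Agent.Helper94.VP.slab (dim I) (lo I) (up I) hlu
    (I.2.map fun r => ((fun j : Fin (dim I) => coef r j), r.2.val)) k (2 ^ bB k c I)
    (by positivity) (by
      intro r hr
      obtain ⟨z, hz, rfl⟩ := List.mem_map.mp hr
      exact hI z hz)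
  rw [acc_eq hI, vol_poly_eq, hv]
  refine h.trans ?_
  rw [← hv, List.length_map]
  refine mul_le_mul_of_nonneg_right ?_ (vol_nonneg _)
  have hM : bigM k c I < 2 ^ bB k c I := Nat.lt_size_self _
  have hlog : (Nat.log 2 (isize I) + 2) ^ c ≤ (isize I + 2) ^ c :=
    Nat.pow_le_pow_left (Nat.add_le_add_right (Nat.log_le_self _ _) _) c
  have h1 : 4 * k * I.2.length * (Nat.log 2 (isize I) + 2) ^ c ≤ 2 ^ bB k c I :=
    (Nat.mul_le_mul_left _ hlog).trans hM.le
  have h2 : (4 * k * I.2.length * (Nat.log 2 (isize I) + 2 : ℕ) ^ c : ℝ) ≤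
      ((2 ^ bB k c I : ℕ) : ℝ) := by exact_mod_cast h1
  have h3 : (0 : ℝ) < ((Nat.log 2 (isize I) + 2 : ℕ) : ℝ) ^ c := by positivity
  have h4 : (0 : ℝ) < ((2 ^ bB k c I : ℕ) : ℝ) := by positivity
  rw [div_mul_div_comm, one_mul, div_le_div_iff₀ h4 (by positivity)]
  nlinarith

theorem vol_box_zero {I : Inst} (h : ¬ ∀ j, lo I j < up I j) : vol (box I) = 0 := by
  rw [vol_box]
  push Not at h
  obtain ⟨j, hj⟩ := h
  exact Finset.prod_eq_zero (Finset.mem_univ j) (max_eq_left (sub_nonpos.mpr hj))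

theorem additive (k c : ℕ) : Additive k c := by
  obtain ⟨g, hg1, hg2⟩ := (Pool.Agent.Helper78.DT.main (c + 1)).2.1 Inst (mach k c) isize
    PT_isize.computable
  have hg : PolyTime g := Pool.Agent.Helper78.LM.PT_of_comp hg1
  have hw := PT_widths
  have hl : PolyTime (fun I : Inst => Nat.log 2 (isize I)) :=
    Pool.Agent.Helper61.DT.PT_log PT_isize
  refine ⟨fun I => (false, BN.ofNat (g I) * (widths I).1,
    BN.ofNat ((Nat.log 2 (isize I) + 2) ^ (c + 1)) * (widths I).2), ?_, fun I hI => ?_⟩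
  · have h : PolyTime (fun I : Inst => ((false, BN.ofNat (g I) * (widths I).1,
      BN.ofNat ((Nat.log 2 (isize I) + 2) ^ (c + 1)) * (widths I).2) : RQ)) := by fun_prop
    exact h.computable
  · have hval : RQ.val (false, BN.ofNat (g I) * (widths I).1,
        BN.ofNat ((Nat.log 2 (isize I) + 2) ^ (c + 1)) * (widths I).2) =
        (g I : ℝ) / (Nat.log 2 (isize I) + 2 : ℕ) ^ (c + 1) * vol (box I) := by
      rw [← widths_val]
      unfold RQ.val
      simp only [BN.val_mul, BN.val_ofNat, Bool.false_eq_true, if_false, one_mul]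
      push_cast
      rw [mul_div_mul_comm]
    rw [hval]
    by_cases hlu : ∀ j, lo I j < up I j
    · have h1 := acc_close (c := c) hI hlu
      have h2 := hg2 I
      set L : ℝ := ((Nat.log 2 (isize I) + 2 : ℕ) : ℝ) with hL
      have hL2 : (2 : ℝ) ≤ L := by
        rw [hL]
        exact_mod_cast Nat.le_add_left _ _
      have hLc : 0 < L ^ c := by positivity
      have h3 : 1 / L ^ (c + 1) ≤ 1 / 2 * (1 / L ^ c) := by
        rw [pow_succ, div_mul_div_comm, one_mul]
        refine div_le_div_of_nonneg_left zero_le_one (by positivity) ?_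
        nlinarith
      have h4 := vol_nonneg (box I)
      have h5 : |(g I : ℝ) / L ^ (c + 1) * vol (box I) -
          ((mach k c).acc I : ℝ) / 2 ^ (mach k c).m I * vol (box I)| ≤
          1 / 2 * (1 / L ^ c) * vol (box I) := by
        rw [← sub_mul, abs_mul, abs_of_nonneg h4]
        exact mul_le_mul_of_nonneg_right (h2.trans h3) h4
      calc _ ≤ |(g I : ℝ) / L ^ (c + 1) * vol (box I) -
          ((mach k c).acc I : ℝ) / 2 ^ (mach k c).m I * vol (box I)| +
          |((mach k c).acc I : ℝ) / 2 ^ (mach k c).m I * vol (box I) - vol (poly I)| :=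
            abs_sub_le _ _ _
        _ ≤ 1 / 2 * (1 / L ^ c) * vol (box I) + 1 / 2 * (1 / L ^ c) * vol (box I) :=
            add_le_add h5 h1
        _ = vol (box I) / L ^ c := by ring
    · have h1 := vol_box_zero hlu
      have h2 : vol (poly I) = 0 := le_antisymm (h1 ▸ poly_le_box I) (vol_nonneg _)
      rw [h1, h2]
      simp

/-- The relative form: if the polytope is at least the part `1 / (log₂ L + 2) ^ e` of the box, then
the relative error is at most `1 / (log₂ L + 2) ^ c`. -/
theorem relative (k c e : ℕ) : ∃ f : Inst → RQ, PolyTimeComputable (encOf Inst) (encOf RQ) f ∧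
    ∀ I, Sparse k I → vol (box I) ≤ (Nat.log 2 (isize I) + 2 : ℕ) ^ e * vol (poly I) →
    |(f I).val - vol (poly I)| ≤ vol (poly I) / (Nat.log 2 (isize I) + 2 : ℕ) ^ c := by
  obtain ⟨f, h1, h2⟩ := additive k (c + e)
  refine ⟨f, h1, fun I hI hb => (h2 I hI).trans ?_⟩
  set L : ℝ := ((Nat.log 2 (isize I) + 2 : ℕ) : ℝ) with hL
  have hL0 : 0 < L := by
    rw [hL]
    positivity
  rw [div_le_div_iff₀ (by positivity) (by positivity), pow_add]
  have h3 : 0 ≤ L ^ c := by positivity
  calc vol (box I) * L ^ c ≤ L ^ e * vol (poly I) * L ^ c := mul_le_mul_of_nonneg_right hb h3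
    _ = vol (poly I) * (L ^ c * L ^ e) := by ring

end Pool.Agent.Helper92.VP
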