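import Pool.Agent.Helper92.VP.Defs

/-!
# Rational arithmetic in polynomial time
-/

namespace Pool.Agent.Helper92.VP

open Pool.Agent.Helper81.CC Pool.Agent.Bin

/-- Rational numbers `(p - p') / q` for computing. -/
abbrev DQ := BN × BN × BN

/-- The value. -/
noncomputable def DQ.val (z : DQ) : ℝ := ((z.1.val : ℝ) - z.2.1.val) / z.2.2.val

/-- Nonzero denominator. -/
def DQ.Ok (z : DQ) : Prop := z.2.2.val ≠ 0

/-- From `RQ` to `DQ`. -/
def toDQ (q : RQ) : DQ :=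
  if q.2.2 = ⟨0⟩ then (⟨0⟩, ⟨0⟩, ⟨1⟩) else if q.1 then (⟨0⟩, q.2.1, q.2.2) else (q.2.1, ⟨0⟩, q.2.2)

/-- Addition. -/
def DQ.add (x y : DQ) : DQ :=
  (x.1 * y.2.2 + y.1 * x.2.2, x.2.1 * y.2.2 + y.2.1 * x.2.2, x.2.2 * y.2.2)

/-- Multiplication. -/
def DQ.mul (x y : DQ) : DQ :=
  (x.1 * y.1 + x.2.1 * y.2.1, x.1 * y.2.1 + x.2.1 * y.1, x.2.2 * y.2.2)

/-- Negation. -/
def DQ.neg (x : DQ) : DQ := (x.2.1, x.1, x.2.2)

/-- Comparison. -/
def DQ.le (x y : DQ) : Bool :=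
  decide (x.1 * y.2.2 + y.2.1 * x.2.2 ≤ y.1 * x.2.2 + x.2.1 * y.2.2)

theorem toDQ_ok (q : RQ) : (toDQ q).Ok := by
  unfold toDQ DQ.Ok
  split_ifs with h1 h2
  · simp
  · intro h; exact h1 (BN.ext h)
  · intro h; exact h1 (BN.ext h)

theorem toDQ_val (q : RQ) : (toDQ q).val = q.val := by
  unfold toDQ DQ.val RQ.val
  split_ifs with h1 h2
  · simp [h1]
  · simp [h1]
  · simp
  · simp

theorem add_ok {x y : DQ} (hx : x.Ok) (hy : y.Ok) : (x.add y).Ok := Nat.mul_ne_zero hx hy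
theorem mul_ok {x y : DQ} (hx : x.Ok) (hy : y.Ok) : (x.mul y).Ok := Nat.mul_ne_zero hx hy
theorem neg_ok {x : DQ} (hx : x.Ok) : x.neg.Ok := hx

theorem add_val {x y : DQ} (hx : x.Ok) (hy : y.Ok) : (x.add y).val = x.val + y.val := by
  have h1 : (x.2.2.val : ℝ) ≠ 0 := Nat.cast_ne_zero.mpr hx
  have h2 : (y.2.2.val : ℝ) ≠ 0 := Nat.cast_ne_zero.mpr hy
  simp only [DQ.add, DQ.val, BN.val_add, BN.val_mul, Nat.cast_add, Nat.cast_mul]
  field_simp
  ring

theorem mul_val (x y : DQ) : (x.mul y).val = x.val * y.val := by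
  simp only [DQ.mul, DQ.val, BN.val_add, BN.val_mul, Nat.cast_add, Nat.cast_mul]
  rw [div_mul_div_comm]
  ring

theorem neg_val (x : DQ) : x.neg.val = - x.val := by
  simp only [DQ.neg, DQ.val]
  ring

theorem le_iff {x y : DQ} (hx : x.Ok) (hy : y.Ok) : x.le y = true ↔ x.val ≤ y.val := by
  have h1 : (0 : ℝ) < x.2.2.val := Nat.cast_pos.mpr (Nat.pos_of_ne_zero hx)
  have h2 : (0 : ℝ) < y.2.2.val := Nat.cast_pos.mpr (Nat.pos_of_ne_zero hy)
  simp only [DQ.le, DQ.val, decide_eq_true_eq, BN.le_def, BN.val_add, BN.val_mul]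
  rw [div_le_div_iff₀ h1 h2, ← Nat.cast_le (α := ℝ)]
  push_cast
  constructor <;> intro h <;> nlinarith

variable {α : Type} [ToData α]

@[fun_prop]
theorem PT_toDQ {f : α → RQ} (hf : PolyTime f) : PolyTime (fun a => toDQ (f a)) := by
  unfold toDQ
  fun_prop

@[fun_prop]
theorem PT_add {f g : α → DQ} (hf : PolyTime f) (hg : PolyTime g) :
    PolyTime (fun a => (f a).add (g a)) := by
  unfold DQ.add
  fun_prop

@[fun_prop]
theorem PT_mul {f g : α → DQ} (hf : PolyTime f) (hg : PolyTime g) :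
    PolyTime (fun a => (f a).mul (g a)) := by
  unfold DQ.mul
  fun_prop

@[fun_prop]
theorem PT_neg {f : α → DQ} (hf : PolyTime f) : PolyTime (fun a => (f a).neg) := by
  unfold DQ.neg
  fun_prop

@[fun_prop]
theorem PT_le {f g : α → DQ} (hf : PolyTime f) (hg : PolyTime g) :
    PolyTime (fun a => (f a).le (g a)) := by
  unfold DQ.le
  fun_prop

/-- The coefficient as data. -/
def cf (r : List RQ × RQ) (j : ℕ) : RQ := r.1.getD j (false, ⟨0⟩, ⟨1⟩)

/-- The coefficient is not zero. -/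
def nzc (r : List RQ × RQ) (j : ℕ) : Bool :=
  decide (¬ (cf r j).2.1 = ⟨0⟩) && decide (¬ (cf r j).2.2 = ⟨0⟩)

theorem coef_eq (r : List RQ × RQ) (j : ℕ) : coef r j = (cf r j).val := rfl

theorem nzc_iff (r : List RQ × RQ) (j : ℕ) : nzc r j = true ↔ coef r j ≠ 0 := by
  rw [coef_eq]
  unfold nzc RQ.val
  have e1 : ∀ b : BN, b = ⟨0⟩ ↔ (b.val : ℝ) = 0 := fun b => by
    rw [Nat.cast_eq_zero]
    exact ⟨fun h => by rw [h], fun h => BN.ext h⟩
  rw [Bool.and_eq_true, decide_eq_true_eq, decide_eq_true_eq, e1, e1, ne_eq, div_eq_zero_iff,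
    mul_eq_zero]
  by_cases hs : (cf r j).1 = true
  · simp [hs]
  · simp [hs]

/-- The support of a row, cut after `k` elements. -/
def supp (k n : ℕ) (r : List RQ × RQ) : List ℕ := ((List.range n).filter (nzc r)).take k

@[fun_prop]
theorem PT_cf {f : α → List RQ × RQ} {g : α → ℕ} (hf : PolyTime f) (hg : PolyTime g) :
    PolyTime (fun a => cf (f a) (g a)) := by
  unfold cf
  fun_prop

@[fun_prop]
theorem PT_nzc {f : α → List RQ × RQ} {g : α → ℕ} (hf : PolyTime f) (hg : PolyTime g) :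
    PolyTime (fun a => nzc (f a) (g a)) := by
  unfold nzc
  fun_prop

@[fun_prop]
theorem PT_supp {f : α → List RQ × RQ} {g : α → ℕ} (k : ℕ) (hf : PolyTime f) (hg : PolyTime g) :
    PolyTime (fun a => supp k (g a) (f a)) := by
  unfold supp
  fun_prop

/-- The coordinate `j` of the lower corner of the cell with the number `v` (for `2 ^ B` cells). -/
def xval (bx : List (RQ × RQ)) (B j : ℕ) (v : BN) : DQ :=
  (toDQ (bx.getD j ((false, ⟨0⟩, ⟨1⟩), (false, ⟨0⟩, ⟨1⟩))).1).add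
    (((toDQ (bx.getD j ((false, ⟨0⟩, ⟨1⟩), (false, ⟨0⟩, ⟨1⟩))).2).add
      (toDQ (bx.getD j ((false, ⟨0⟩, ⟨1⟩), (false, ⟨0⟩, ⟨1⟩))).1).neg).mul (v, ⟨0⟩, BN.pow2 B))

@[fun_prop]
theorem PT_xval {bx : α → List (RQ × RQ)} {B j : α → ℕ} {v : α → BN} (h1 : PolyTime bx)
    (h2 : PolyTime B) (h3 : PolyTime j) (h4 : PolyTime v) :
    PolyTime (fun a => xval (bx a) (B a) (j a) (v a)) := by
  unfold xval
  fun_prop

theorem xval_ok (bx : List (RQ × RQ)) (B j : ℕ) (v : BN) : (xval bx B j v).Ok :=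
  add_ok (toDQ_ok _) (mul_ok (add_ok (toDQ_ok _) (neg_ok (toDQ_ok _))) (by
    show 2 ^ B ≠ 0
    positivity))

theorem xval_val (I : Inst) (B : ℕ) (j : Fin (dim I)) (v : BN) :
    (xval I.1 B j v).val = lo I j + (up I j - lo I j) * (v.val : ℝ) / (2 : ℝ) ^ B := by
  unfold xval
  rw [add_val (toDQ_ok _) (mul_ok (add_ok (toDQ_ok _) (neg_ok (toDQ_ok _))) (by
    show 2 ^ B ≠ 0
    positivity)), mul_val, add_val (toDQ_ok _) (neg_ok (toDQ_ok _)), neg_val, toDQ_val, toDQ_val]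
  have h1 : I.1.getD (j : ℕ) ((false, ⟨0⟩, ⟨1⟩), (false, ⟨0⟩, ⟨1⟩)) = I.1[j] := by
    rw [List.getD_eq_getElem?_getD, List.getElem?_eq_getElem j.2]
    rfl
  rw [h1]
  unfold lo up
  simp only [DQ.val, BN.val_pow2]
  push_cast
  ring

/-- The term with the number `t` of a row. -/
def term (bx : List (RQ × RQ)) (B : ℕ) (S : List ℕ) (r : List RQ × RQ) (a : List Bool) (t : ℕ) :
    DQ :=
  if t < S.length then
    (toDQ (cf r (S.getD t 0))).mul (xval bx B (S.getD t 0) (BN.ofBits ((a.drop (t * B)).take B)))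
  else (⟨0⟩, ⟨0⟩, ⟨1⟩)

/-- The sum of the first `k` terms of a row. -/
def evalK (bx : List (RQ × RQ)) (B : ℕ) (S : List ℕ) (r : List RQ × RQ) (a : List Bool) : ℕ → DQ
  | 0 => (⟨0⟩, ⟨0⟩, ⟨1⟩)
  | t + 1 => (evalK bx B S r a t).add (term bx B S r a t)

theorem PT_evalK {bx : α → List (RQ × RQ)} {B : α → ℕ} {S : α → List ℕ}
    {r : α → List RQ × RQ} {a : α → List Bool} (h1 : PolyTime bx) (h2 : PolyTime B)
    (h3 : PolyTime S) (h4 : PolyTime r) (h5 : PolyTime a) (k : ℕ) :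
    PolyTime (fun z => evalK (bx z) (B z) (S z) (r z) (a z) k) := by
  induction k with
  | zero =>
    unfold evalK
    fun_prop
  | succ k ih =>
    unfold evalK
    refine PT_add ih ?_
    unfold term
    fun_prop

theorem term_ok (bx : List (RQ × RQ)) (B : ℕ) (S : List ℕ) (r : List RQ × RQ) (a : List Bool)
    (t : ℕ) : (term bx B S r a t).Ok := by
  unfold term
  split_ifs
  · exact mul_ok (toDQ_ok _) (xval_ok _ _ _ _)
  · exact Nat.one_ne_zero

theorem evalK_ok (bx : List (RQ × RQ)) (B : ℕ) (S : List ℕ) (r : List RQ × RQ) (a : List Bool)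
    (k : ℕ) : (evalK bx B S r a k).Ok := by
  induction k with
  | zero => exact Nat.one_ne_zero
  | succ k ih => exact add_ok ih (term_ok _ _ _ _ _ _)

theorem evalK_val (bx : List (RQ × RQ)) (B : ℕ) (S : List ℕ) (r : List RQ × RQ) (a : List Bool)
    (k : ℕ) : (evalK bx B S r a k).val = ∑ t ∈ Finset.range k, (term bx B S r a t).val := by
  induction k with
  | zero => simp [evalK, DQ.val]
  | succ k ih =>
    rw [evalK, add_val (evalK_ok _ _ _ _ _ _) (term_ok _ _ _ _ _ _), ih, Finset.sum_range_succ]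

end Pool.Agent.Helper92.VP
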