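import Pool.Agent.Helper92.VP.Alg2
import Pool.Agent.Helper92.VP.Goals

/-!
# The acceptance probability is the fraction of the good corners
-/

namespace Pool.Agent.Helper92.VP

open Pool.Agent.Helper81.CC Pool.Agent.Bin Pool.Agent.Helper78.DT

theorem block (k c : ℕ) (I : Inst) (r : Fin (I.1.length * bB k c I) → Bool) (i t : ℕ)
    (ht : t < (spi k I i).length) :
    ((rd k c I r i).drop (t * bB k c I)).take (bB k c I) =
      (List.range (bB k c I)).map fun s => (mach k c).coin (x := I) r
        ((spi k I i).getD t 0 * bB k c I + s) := by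
  have hle : (t + 1) * bB k c I ≤ (spi k I i).length * bB k c I := Nat.mul_le_mul_right _ ht
  have hle' : t * bB k c I + bB k c I ≤ (spi k I i).length * bB k c I := by
    rw [Nat.succ_mul] at hle
    exact hle
  unfold rd
  refine List.ext_getElem ?_ fun s h1 h2 => ?_
  · simp only [List.length_take, List.length_drop, List.length_map, List.length_range]
    omega
  · simp only [List.length_map, List.length_range] at h2
    simp only [List.getElem_take, List.getElem_drop, List.getElem_map, List.getElem_range]
    have hB : 0 < bB k c I := by omega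
    have e1 : (t * bB k c I + s) / bB k c I = t := by
      rw [mul_comm, Nat.mul_add_div hB, Nat.div_eq_of_lt h2, add_zero]
    have e2 : (t * bB k c I + s) % bB k c I = s := by
      rw [mul_comm, Nat.mul_add_mod, Nat.mod_eq_of_lt h2]
    rw [e1, e2]

theorem filter_sum (n : ℕ) (p : ℕ → Bool) (g : ℕ → ℝ) (hg : ∀ j, p j = false → g j = 0) :
    (((List.range n).filter p).map g).sum = ∑ j : Fin n, g j := by
  rw [Fin.sum_univ_eq_sum_range (fun j => g j) n]
  induction n with
  | zero => simp
  | succ n ih =>
    rw [List.range_succ, List.filter_append, List.map_append, List.sum_append, ih,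
      Finset.sum_range_succ]
    cases h : p n with
    | false => simp [h, hg n h]
    | true => simp [h]

theorem filter_card (n : ℕ) (p : ℕ → Bool) :
    ((List.range n).filter p).length = {j : Fin n | p j = true}.ncard := by
  classical
  have h1 : {j : Fin n | p j = true}.ncard = (Finset.univ.filter fun j : Fin n => p j = true).card := by
    rw [← Set.ncard_coe_finset]
    congr 1
    ext j
    simp
  rw [h1, Finset.card_filter, Fin.sum_univ_eq_sum_range (fun j => if p j = true then 1 else 0) n]
  induction n with
  | zero => simp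
  | succ n ih =>
    have h2 : {j : Fin n | p j = true}.ncard = (Finset.univ.filter fun j : Fin n => p j = true).card := by
      rw [← Set.ncard_coe_finset]
      congr 1
      ext j
      simp
    rw [List.range_succ, List.filter_append, List.length_append, ih h2, Finset.sum_range_succ]
    congr 1
    cases h : p n <;> simp [h]

theorem sum_term (f : ℕ → ℝ) (k : ℕ) (S : List ℕ) (hS : S.length ≤ k) :
    (∑ t ∈ Finset.range k, if t < S.length then f (S.getD t 0) else 0) = (S.map f).sum := by
  induction S generalizing k with
  | nil => simp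
  | cons x S ih =>
    cases k with
    | zero => simp at hS
    | succ k =>
      have hS' : S.length ≤ k := by simpa using hS
      rw [Finset.sum_range_succ', List.map_cons, List.sum_cons, ← ih k hS']
      simp only [List.length_cons, Nat.add_lt_add_iff_right, List.getD_cons_succ, Nat.zero_lt_succ,
        if_true, List.getD_cons_zero]
      ring

theorem row_mem {I : Inst} {i : ℕ} (hi : i < I.2.length) : rowi I i = I.2[i] := by
  unfold rowi
  rw [List.getD_eq_getElem?_getD, List.getElem?_eq_getElem hi]
  rfl

theorem spi_eq {k : ℕ} {I : Inst} (hI : Sparse k I) {i : ℕ} (hi : i < I.2.length) :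
    spi k I i = (List.range I.1.length).filter (nzc (rowi I i)) := by
  unfold spi supp
  refine List.take_of_length_le ?_
  rw [filter_card, row_mem hi]
  refine le_trans (le_of_eq ?_) (hI _ (List.getElem_mem hi))
  congr 1
  ext j
  exact nzc_iff _ _

theorem verd_iff {k c : ℕ} {I : Inst} (hI : Sparse k I)
    (r : Fin (I.1.length * bB k c I) → Bool) {i : ℕ} (hi : i < I.2.length) :
    verd k c I i (rd k c I r i) = true ↔
      (rowi I i).2.val ≤ ∑ j : Fin (dim I), coef (rowi I i) j *
        (lo I j + (up I j - lo I j) * (vJ k c I r j : ℝ) / (2 : ℝ) ^ bB k c I) := by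
  unfold verd
  rw [le_iff (toDQ_ok _) (evalK_ok _ _ _ _ _ _), toDQ_val, evalK_val]
  have h1 : ∀ t ∈ Finset.range k,
      (term I.1 (bB k c I) (spi k I i) (rowi I i) (rd k c I r i) t).val =
      if t < (spi k I i).length then coef (rowi I i) ((spi k I i).getD t 0) *
        (xval I.1 (bB k c I) ((spi k I i).getD t 0)
          ⟨vJ k c I r ((spi k I i).getD t 0)⟩).val else 0 := by
    intro t _
    unfold term
    split_ifs with ht
    · rw [mul_val, toDQ_val, coef_eq]
      congr 3
      have := block k c I r i t ht
      rw [this]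
      rfl
    · simp [DQ.val]
  rw [Finset.sum_congr rfl h1, sum_term (fun j => coef (rowi I i) j *
      (xval I.1 (bB k c I) j ⟨vJ k c I r j⟩).val) k _ (spi_length_le k I i), spi_eq hI hi,
    filter_sum]
  · refine iff_of_eq (congrArg _ (Finset.sum_congr rfl fun j _ => ?_))
    rw [xval_val]
  · intro j hj
    have : coef (rowi I i) j = 0 := by
      by_contra h
      rw [(nzc_iff _ _).mpr h] at hj
      exact Bool.noConfusion hj
    rw [this, zero_mul]

theorem bval_inj : ∀ {a b : List Bool}, a.length = b.length → bval a = bval b → a = b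
  | [], [], _, _ => rfl
  | [], _ :: _, h, _ => by simp at h
  | _ :: _, [], h, _ => by simp at h
  | x :: a, y :: b, h, h' => by
    rw [bval_cons, bval_cons] at h'
    have h1 : x = y ∧ bval a = bval b := by
      cases x <;> cases y <;> simp at h' ⊢ <;> omega
    rw [h1.1, bval_inj (by simpa using h) h1.2]

/-- The corner index of the coins. -/
def vF (k c : ℕ) (I : Inst) (r : Fin (I.1.length * bB k c I) → Bool) :
    Fin (dim I) → Fin (2 ^ bB k c I) := fun j => ⟨vJ k c I r j, by
  have := bval_lt ((List.range (bB k c I)).map fun s =>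
    (mach k c).coin (x := I) r ((j : ℕ) * bB k c I + s))
  rw [List.length_map, List.length_range] at this
  exact this⟩

theorem vF_injective (k c : ℕ) (I : Inst) : Function.Injective (vF k c I) := by
  intro r r' h
  funext q
  have hB : 0 < bB k c I := by
    rcases Nat.eq_zero_or_pos (bB k c I) with h0 | h0
    · have h1 : (q : ℕ) < I.1.length * bB k c I := q.2
      have h2 : I.1.length * bB k c I = 0 := by rw [h0, mul_zero]
      omega
    · exact h0
  have hj : (q : ℕ) / bB k c I < I.1.length := Nat.div_lt_of_lt_mul (by
    have h1 : (q : ℕ) < I.1.length * bB k c I := q.2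
    have h2 : I.1.length * bB k c I = bB k c I * I.1.length := mul_comm _ _
    omega)
  have h1 := congrArg Fin.val (congrFun h ⟨(q : ℕ) / bB k c I, hj⟩)
  have h2 := bval_inj (by simp) h1
  have h3 := List.map_inj_left.mp h2 ((q : ℕ) % bB k c I)
    (List.mem_range.mpr (Nat.mod_lt _ hB))
  have h4 : (q : ℕ) / bB k c I * bB k c I + (q : ℕ) % bB k c I = q := Nat.div_add_mod' _ _
  simp only [h4] at h3
  unfold Machine.coin at h3
  have h5 : (q : ℕ) < (mach k c).m I := q.2
  rw [dif_pos h5, dif_pos h5] at h3
  exact h3

theorem acc_eq {k c : ℕ} {I : Inst} (hI : Sparse k I) :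
    ((mach k c).acc I : ℝ) / 2 ^ (mach k c).m I =
      (Nat.card {v : Fin (dim I) → Fin (2 ^ bB k c I) //
        ∀ r ∈ (I.2.map fun r => ((fun j : Fin (dim I) => coef r j), r.2.val)),
          r.2 ≤ ∑ j, r.1 j * (lo I j + (up I j - lo I j) * ((v j : ℕ) : ℝ) /
            ((2 ^ bB k c I : ℕ) : ℝ))} : ℝ) / ((2 ^ bB k c I : ℕ) : ℝ) ^ (dim I) := by
  have hbij : Function.Bijective (vF k c I) := by
    rw [Fintype.bijective_iff_injective_and_card]
    refine ⟨vF_injective k c I, ?_⟩
    simp only [Fintype.card_fun, Fintype.card_fin, Fintype.card_bool]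
    rw [← pow_mul, mul_comm]
  have hcard : (mach k c).acc I = Nat.card {v : Fin (dim I) → Fin (2 ^ bB k c I) //
        ∀ r ∈ (I.2.map fun r => ((fun j : Fin (dim I) => coef r j), r.2.val)),
          r.2 ≤ ∑ j, r.1 j * (lo I j + (up I j - lo I j) * ((v j : ℕ) : ℝ) /
            ((2 ^ bB k c I : ℕ) : ℝ))} := by
    unfold Machine.acc
    refine Nat.card_congr ((Equiv.ofBijective _ hbij).subtypeEquiv fun r => ?_)
    rw [accepts_iff]
    simp only [List.mem_map, forall_exists_index, and_imp, forall_apply_eq_imp_iff₂]
    have key : ∀ i, ∀ hi : i < I.2.length, (verd k c I i (rd k c I r i) = true ↔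
        (I.2[i]).2.val ≤ ∑ j : Fin (dim I), coef (I.2[i]) j *
          (lo I j + (up I j - lo I j) * (((Equiv.ofBijective _ hbij r) j : ℕ) : ℝ) /
            ((2 ^ bB k c I : ℕ) : ℝ))) := by
      intro i hi
      rw [verd_iff hI r hi, row_mem hi]
      push_cast
      rfl
    constructor
    · intro h z hz
      obtain ⟨i, hi, rfl⟩ := List.mem_iff_getElem.mp hz
      exact (key i hi).mp (h i hi)
    · intro h i hi
      exact (key i hi).mpr (h _ (List.getElem_mem hi))
  rw [hcard]
  congr 1
  push_cast
  rw [← pow_mul, mul_comm]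
  rfl

end Pool.Agent.Helper92.VP
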